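import Pool.Agent.F5H.StmtsG

/-!
MP_f5cbfa_nt, row C_I2: two small lemmas (separation; the angle of `Psi`).
-/

set_option autoImplicit false

open Complex ComplexConjugate

namespace Pool.Agent.F5H.BC.H46

open Pool.Agent.BTL Pool.Agent.F5S Pool.Agent.F5H Pool.Agent.F5.H58

theorem norm_sq_sub {U W : ℂ} (hU : ‖U‖ = 1) (hW : ‖W‖ = 1) :
    ‖U ^ 2 - W ^ 2‖ = 2 * |(conj U * W).im| := by
  have hUU : U * conj U = 1 := by
    rw [Complex.mul_conj, Complex.normSq_eq_norm_sq, hU]; norm_num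
  have hWW : W * conj W = 1 := by
    rw [Complex.mul_conj, Complex.normSq_eq_norm_sq, hW]; norm_num
  have h1 : U ^ 2 - W ^ 2 = (U * W) * (conj (conj U * W) - conj U * W) := by
    have e : conj (conj U * W) = U * conj W := by simp
    rw [e]
    linear_combination (-(U ^ 2)) * hWW + W ^ 2 * hUU
  have h2 : conj (conj U * W) - conj U * W = -(((2 * (conj U * W).im : ℝ) : ℂ) * I) := by
    apply Complex.ext
    · simp
    · simp; ring
  rw [h1, h2, norm_mul, norm_mul, hU, hW, norm_neg, norm_mul, Complex.norm_I, Complex.norm_real,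
    Real.norm_eq_abs, abs_mul]
  norm_num

theorem sep_of {d η : ℝ} {u v U W : ℂ} (hu : ‖u‖ = 1) (hv : ‖v‖ = 1) (hU : ‖U‖ = 1)
    (hW : ‖W‖ = 1) (e1 : ‖U - u‖ ≤ d) (e2 : ‖W - v‖ ≤ d) (h : 8 * d ≤ η)
    (hs : η ≤ ‖u ^ 2 - v ^ 2‖) : η / 4 ≤ |(conj U * W).im| := by
  have h1 : ‖U ^ 2 - u ^ 2‖ ≤ d * 2 := by
    have e : U ^ 2 - u ^ 2 = (U - u) * (U + u) := by ring
    rw [e, norm_mul]
    have := norm_add_le U u
    exact mul_le_mul e1 (by rw [hU, hu] at this; linarith) (norm_nonneg _)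
      ((norm_nonneg _).trans e1)
  have h2 : ‖W ^ 2 - v ^ 2‖ ≤ d * 2 := by
    have e : W ^ 2 - v ^ 2 = (W - v) * (W + v) := by ring
    rw [e, norm_mul]
    have := norm_add_le W v
    exact mul_le_mul e2 (by rw [hW, hv] at this; linarith) (norm_nonneg _)
      ((norm_nonneg _).trans e2)
  have h3 : ‖u ^ 2 - v ^ 2‖ ≤ ‖U ^ 2 - W ^ 2‖ + ‖U ^ 2 - u ^ 2‖ + ‖W ^ 2 - v ^ 2‖ := by
    have e : u ^ 2 - v ^ 2 = (U ^ 2 - W ^ 2) - (U ^ 2 - u ^ 2) + (W ^ 2 - v ^ 2) := by ring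
    rw [e]
    exact (norm_add_le _ _).trans (add_le_add (norm_sub_le _ _) le_rfl)
  have h4 := norm_sq_sub hU hW
  linarith

/-- the argument of `1 + z` for small `z` -/
theorem abs_arg_le' {z : ℂ} (h1 : 15 / 16 ≤ z.re) (h2 : |z.im| ≤ 1 / 16) : |arg z| ≤ 1 / 2 := by
  have hz : 0 < z.re := by linarith
  have hn : 15 / 16 ≤ ‖z‖ := h1.trans ((le_abs_self _).trans (Complex.abs_re_le_norm z))
  have ha : |arg z| ≤ Real.pi / 2 := Complex.abs_arg_le_pi_div_two_iff.2 hz.le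
  have hs : Real.sin |arg z| ≤ 1 / 15 := by
    have h3 : Real.sin |arg z| = |z.im| / ‖z‖ := by
      rcases le_total 0 (arg z) with h | h
      · rw [abs_of_nonneg h, Complex.sin_arg, abs_of_nonneg (Complex.arg_nonneg_iff.1 h)]
      · rw [abs_of_nonpos h, Real.sin_neg, Complex.sin_arg]
        have h4 : z.im ≤ 0 := by
          rcases h.lt_or_eq with h | h
          · exact (Complex.arg_neg_iff.1 h).le
          · exact (Complex.arg_eq_zero_iff.1 h).2.le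
        rw [abs_of_nonpos h4, neg_div]
    rw [h3, div_le_div_iff₀ (by linarith) (by norm_num)]
    linarith
  have h4 := Real.mul_le_sin (abs_nonneg (arg z)) ha
  have hp := Real.pi_lt_four
  have hp0 := Real.pi_pos
  have h5 : |arg z| = (Real.pi / 2) * (2 / Real.pi * |arg z|) := by
    field_simp
  rw [h5]
  calc (Real.pi / 2) * (2 / Real.pi * |arg z|) ≤ 2 * (1 / 15) := by
        apply mul_le_mul (by linarith) (h4.trans hs) (by positivity) (by norm_num)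
    _ ≤ 1 / 2 := by norm_num

theorem norm_mw_le {w : ℝ × (Fin 3 → ℝ)} (h0 : |w.2 0| ≤ 1 / 16) (h1 : |w.2 1| ≤ 1 / 16) :
    ‖((w.2 0 : ℂ) + (w.2 1 : ℂ) * I)‖ ≤ 1 / 8 := by
  refine (norm_add_le _ _).trans ?_
  rw [norm_mul, Complex.norm_I, Complex.norm_real, Complex.norm_real, Real.norm_eq_abs,
    Real.norm_eq_abs]
  linarith

theorem Psi_six (A : ℝ × ℝ × ℝ) {w : ℝ × (Fin 3 → ℝ)} (h0 : |w.2 0| ≤ 1 / 16)
    (h1 : |w.2 1| ≤ 1 / 16) (h2 : |w.2 2| ≤ 5) : |(Psi A w).2| ≤ 6 := by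
  have hm := norm_mw_le h0 h1
  set m : ℂ := (w.2 0 : ℂ) + (w.2 1 : ℂ) * I with hmd
  have e : (Psi A w).2 = ph3 m (w.2 2) - arg (1 + m) := rfl
  rw [e]
  have ha : |arg (1 + m)| ≤ 1 / 2 := by
    apply abs_arg_le'
    · have : (1 + m).re = 1 + w.2 0 := by simp [hmd]
      rw [this]
      have := (abs_le.1 h0).1
      linarith
    · have : (1 + m).im = w.2 1 := by simp [hmd]
      rw [this]
      exact h1
  have hb : |(m * cexp (((-2 * w.2 2 : ℝ) : ℂ) * I)).im| ≤ 1 / 8 := by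
    refine (Complex.abs_im_le_norm _).trans ?_
    rw [norm_mul, Complex.norm_exp_ofReal_mul_I, mul_one]
    exact hm
  unfold ph3
  have hc1 := abs_le.1 ha
  have hc2 := abs_le.1 hb
  have hc3 := abs_le.1 h2
  exact abs_le.2 ⟨by linarith, by linarith⟩

end Pool.Agent.F5H.BC.H46
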