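import Pool.Agent.Helper3_F5H.C_CHA
import Pool.Agent.Helper94_F5H.C_CHE
import Pool.Agent.Helper94_F5H.C_CVR
import Pool.Agent.Helper81_F5H.C_COV
import Pool.Agent.Helper65_F5H.C_SCL
import Pool.Agent.Helper39_F5H.PER
import Pool.Agent.Helper67_F5H.CKV30
import Pool.Agent.Helper96_F5H.KR
import Pool.Agent.Helper96_F5H.MN
import Pool.Agent.Helper9_F5H.Lpx
import Pool.Agent.Helper17_F5H.C_FRM
import Pool.Agent.Helper58_F5.I1
import Pool.Agent.Helper9_F5H.C_I2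
import Pool.Agent.Helper48_F5H.C_I3
import Pool.Agent.Helper85_F5H.MG
import Pool.Agent.Helper38_F5H.C_I4
import Pool.Agent.Helper20_F5H.C_I5
import Pool.Agent.Helper90_F5H.C_I6

/-!
MP_f5cbfa_nt, block C: `MATStmt`.
-/

set_option autoImplicit false

namespace Pool.Agent.F5H.BC.H46

open Pool.Agent.F5H.BC

theorem mat : MATStmt :=
  Pool.Agent.F5H.BC.H90.i6 Pool.Agent.F5H.BC.H3.cha Pool.Agent.F5H.BC.H94.c_che
    Pool.Agent.F5H.BC.H81.cov Pool.Agent.F5H.BC.H65.scl Pool.Agent.F5H.H39.per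
    Pool.Agent.F5H.BC.H94.c_cvr Pool.Agent.F5H.BC.H67.kv30 Pool.Agent.F5H.BC.H96.kr
    Pool.Agent.F5H.BC.H96.mn Pool.Agent.F5H.H9.lpx Pool.Agent.F5H.BC.H17.frm
    Pool.Agent.F5.H58.i1 Pool.Agent.F5H.H9.i2 Pool.Agent.F5H.BC.H48.i3 Pool.Agent.F5H.BC.H85.mg
    Pool.Agent.F5H.BC.H38.i4 Pool.Agent.F5H.BC.H20.i5

end Pool.Agent.F5H.BC.H46
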